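import Pool.Agent.QPT.Defs

/-! QPT-Core: the core `T0` has large chromatic number.

PLAN. `X = D \ T0`. For `u ∈ X` choose `S u ⊆ D` with `u ∉ S u`, `4 t W chi (S u) ≤ chi D` and
`¬ Full G W D (cmp G (D \ S u) u)` (`choose`, extend by `∅` outside `X`). `pb` (QPB/PBd) with `R = D`,
`ν = chi D / (4 t W)`, `β = (1 - 1/(2W)) chi D`, `chi (X ∩ cmp ..) ≤ chi (cmp ..) < β`: `chi X ≤ β + t ν = (1 - 1/(4W)) chi D`.
`chi D ≤ chi X + chi T0`. -/

open Finset
open scoped Classical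
open Pool.Agent.Helper20.Dense Pool.Agent.QPB

namespace Pool.Agent.QPT

variable {V : Type*} [Fintype V] [DecidableEq V] (G : SimpleGraph V)

theorem chi_T0 {t W : ℕ} (ht : 1 ≤ t) (hW : 1 ≤ W)
    (hfree : IsEmpty (SimpleGraph.pathGraph t ↪g G)) (D : Finset V) :
    (chi G D : ℝ) ≤ 4 * (W : ℝ) * (chi G (T0 G W (4 * (t : ℝ) * (W : ℝ)) D) : ℝ) := by
  have htr : (1 : ℝ) ≤ t := by exact_mod_cast ht
  have hWr : (1 : ℝ) ≤ W := by exact_mod_cast hW
  set N : ℝ := 4 * (t : ℝ) * (W : ℝ) with hN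
  have hNpos : 0 < N := by positivity
  set X := D \ T0 G W N D with hX
  have hex : ∀ u : V, ∃ S : Finset V, u ∈ X → S ⊆ D ∧ u ∉ S ∧ N * (chi G S : ℝ) ≤ (chi G D : ℝ) ∧
      ¬ Full G W D (cmp G (D \ S) u) := by
    intro u
    by_cases hu : u ∈ X
    · rw [hX, Finset.mem_sdiff] at hu
      have h1 := hu.2
      unfold T0 at h1
      rw [Finset.mem_filter] at h1
      push Not at h1
      obtain ⟨S, hS, huS, hSc, hf⟩ := h1 hu.1
      exact ⟨S, fun _ => ⟨hS, huS, hSc, hf⟩⟩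
    · exact ⟨∅, fun h => absurd h hu⟩
  choose S hS using hex
  have hd : (0 : ℝ) ≤ (chi G D : ℝ) := Nat.cast_nonneg _
  have h1W : 1 / (2 * (W : ℝ)) ≤ 1 := by
    rw [div_le_one (by positivity)]
    linarith
  have h2 := pb G ht hfree (X := X) (R := D) Finset.sdiff_subset S (fun u hu => (hS u hu).2.1)
    (ν := (chi G D : ℝ) / N) (β := (1 - 1 / (2 * (W : ℝ))) * (chi G D : ℝ))
    (by positivity) (mul_nonneg (by linarith) hd)
    (by
      intro u hu
      rw [le_div_iff₀ hNpos, mul_comm]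
      exact (hS u hu).2.2.1)
    (by
      intro u hu
      have h3 := (hS u hu).2.2.2
      unfold Full at h3
      push Not at h3
      have h4 : (chi G (X ∩ cmp G (D \ S u) u) : ℝ) ≤ (chi G (cmp G (D \ S u) u) : ℝ) := by
        exact_mod_cast chi_mono G Finset.inter_subset_right
      linarith)
  have h3 : (chi G D : ℝ) ≤ (chi G X : ℝ) + (chi G (T0 G W N D) : ℝ) := by
    have h4 : chi G D ≤ chi G X + chi G (T0 G W N D) := by
      refine le_trans (chi_mono G ?_) (chi_union G X (T0 G W N D))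
      intro y hy
      rw [Finset.mem_union, hX, Finset.mem_sdiff]
      by_cases h : y ∈ T0 G W N D
      · exact Or.inr h
      · exact Or.inl ⟨hy, h⟩
    exact_mod_cast h4
  have h5 : (t : ℝ) * ((chi G D : ℝ) / N) = 1 / (4 * (W : ℝ)) * (chi G D : ℝ) := by
    rw [hN]
    field_simp
  rw [h5] at h2
  have h6 : (4 * (W : ℝ)) * (1 / (2 * (W : ℝ)) * (chi G D : ℝ)) = 2 * (chi G D : ℝ) := by
    field_simp
    ring
  have h7 : (4 * (W : ℝ)) * (1 / (4 * (W : ℝ)) * (chi G D : ℝ)) = (chi G D : ℝ) := by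
    field_simp
  have h8 : (1 / (2 * (W : ℝ))) * (chi G D : ℝ) - 1 / (4 * (W : ℝ)) * (chi G D : ℝ) ≤
      (chi G (T0 G W N D) : ℝ) := by
    nlinarith
  have h9 := mul_le_mul_of_nonneg_left h8 (by positivity : (0 : ℝ) ≤ 4 * (W : ℝ))
  nlinarith

end Pool.Agent.QPT
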