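import Pool.Agent.QPT.Defs
import Pool.Agent.QPB.NumA

/-! QPT-NumB: change of scale.

PLAN. `conn_of_xt`: `exists_conn` (QPB/CompB) gives `C ⊆ D` connected with the same chromatic number; the inequality
`Extr` for `X = C` gives `om D ^ g ≤ om C ^ g`, so `om C = om D` (see the private lemma `conn_extr` in QPB/NumC), and then
`Xt G g C`. `scale`: see `scale` and `conn_extr` in QPB/NumC. `conn_extr` for the exponent `g` gives `D₁ ⊆ N` connected,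
`Xt G g D₁`, `chi N * om D₁ ^ g ≤ chi D₁ * om N ^ g ≤ chi D₁ * om D ^ g`. With `Extr` of `D` for `X = D₁`:
`chi N * om D ^ s ≤ chi D * om D₁ ^ s ≤ F chi N * om D₁ ^ s`, so `om D ^ s ≤ F om D₁ ^ s`; if `om D₁ < (1 - al) om D` then
`om D₁ ^ s < (1 - al)^s om D ^ s` (`s ≥ 1`): contradiction to `(1 - al)^s F ≤ 1`. Last claim:
`chi D ≤ F chi N` and `om D ≤ 2 om D₁` (`al ≤ 1/2`), so `chi N * om D₁ ^ g ≤ chi D₁ * (2 om D₁)^g`. `D` nonempty gives
`chi D ≥ 1`, so `F > 0` and `chi N > 0`. -/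

open Finset
open scoped Classical
open Pool.Agent.Helper20.Dense Pool.Agent.QPB

namespace Pool.Agent.QPT

variable {V : Type*} [Fintype V] [DecidableEq V] (G : SimpleGraph V)

theorem conn_of_xt {g : ℕ} (hg : 1 ≤ g) {D : Finset V} (hD : Xt G g D) :
    ∃ C ⊆ D, Conn G C ∧ Xt G g C ∧ chi G C = chi G D ∧ om G C = om G D := by
  obtain ⟨D₁, hD₁, hne, hconn, hchi⟩ := exists_conn G hD.1
  have hchipos : (0 : ℝ) < (chi G D : ℝ) := by
    have := chi_pos G hD.1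
    exact_mod_cast this
  have h1 : (chi G D₁ : ℝ) * (om G D : ℝ) ^ g ≤ (chi G D : ℝ) * (om G D₁ : ℝ) ^ g := hD.2 D₁ hD₁
  rw [hchi] at h1
  have h2 : (om G D : ℝ) ^ g ≤ (om G D₁ : ℝ) ^ g := le_of_mul_le_mul_left h1 hchipos
  have h3 : (om G D : ℝ) ≤ (om G D₁ : ℝ) :=
    le_of_pow_le_pow_left₀ (by omega) (Nat.cast_nonneg _) h2
  have h4 : om G D = om G D₁ := by
    apply le_antisymm
    · exact_mod_cast h3
    · exact om_mono G hD₁
  refine ⟨D₁, hD₁, hconn, ⟨hne, ?_⟩, hchi, h4.symm⟩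
  intro X hX
  have h5 : (chi G X : ℝ) * (om G D : ℝ) ^ g ≤ (chi G D : ℝ) * (om G X : ℝ) ^ g :=
    hD.2 X (hX.trans hD₁)
  show (chi G X : ℝ) * (om G D₁ : ℝ) ^ g ≤ (chi G D₁ : ℝ) * (om G X : ℝ) ^ g
  rw [← h4, hchi]
  exact h5

theorem scale {g s : ℕ} (hg : 1 ≤ g) (hs : 1 ≤ s) {al F : ℝ} (hal0 : 0 < al) (hal : al ≤ 1 / 2)
    (heps : (1 - al) ^ s * F ≤ 1) {D N : Finset V} (hD : Xt G (g + s) D) (hN : N ⊆ D)
    (hbig : (chi G D : ℝ) ≤ F * (chi G N : ℝ)) :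
    ∃ D₁ ⊆ N, Conn G D₁ ∧ Xt G g D₁ ∧ (1 - al) * (om G D : ℝ) ≤ (om G D₁ : ℝ) ∧
      (chi G D : ℝ) ≤ F * 2 ^ g * (chi G D₁ : ℝ) := by
  have hDpos : (0 : ℝ) < (chi G D : ℝ) := by
    have := chi_pos G hD.1
    exact_mod_cast this
  have hN0 : (0 : ℝ) ≤ (chi G N : ℝ) := Nat.cast_nonneg _
  have hNpos : (0 : ℝ) < (chi G N : ℝ) := by
    rcases hN0.lt_or_eq with h | h
    · exact h
    · rw [← h, mul_zero] at hbig
      linarith
  have hFpos : 0 < F := by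
    by_contra hcon
    push Not at hcon
    have h1 : F * (chi G N : ℝ) ≤ 0 := mul_nonpos_of_nonpos_of_nonneg hcon hN0
    linarith
  have hNne : N.Nonempty := nonempty_of_chi_pos G (by exact_mod_cast hNpos)
  obtain ⟨D', hD'N, hD'ne, hext', hcmp0⟩ := exists_extr G (chi_isMu G) g hNne
  obtain ⟨D₁, hD₁D', hconn, hxt, hchi1, hom1⟩ := conn_of_xt G hg ⟨hD'ne, hext'⟩
  have hD₁N : D₁ ⊆ N := hD₁D'.trans hD'N
  have hcmp : (chi G N : ℝ) * (om G D₁ : ℝ) ^ g ≤ (chi G D₁ : ℝ) * (om G N : ℝ) ^ g := by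
    rw [hchi1, hom1]
    exact hcmp0
  have hD₁ne : D₁.Nonempty := hxt.1
  have hm1 : (1 : ℝ) ≤ (om G D₁ : ℝ) := by exact_mod_cast om_pos G hD₁ne
  have hw1 : (1 : ℝ) ≤ (om G D : ℝ) := by exact_mod_cast om_pos G hD.1
  set w : ℝ := (om G D : ℝ) with hw
  set m : ℝ := (om G D₁ : ℝ) with hm
  have hNw : (om G N : ℝ) ≤ w := by
    rw [hw]
    exact_mod_cast om_mono G hN
  have hcmp' : (chi G N : ℝ) * m ^ g ≤ (chi G D₁ : ℝ) * w ^ g := by
    refine hcmp.trans (mul_le_mul_of_nonneg_left ?_ (Nat.cast_nonneg _))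
    exact pow_le_pow_left₀ (Nat.cast_nonneg _) hNw _
  have hext : (chi G D₁ : ℝ) * w ^ (g + s) ≤ (chi G D : ℝ) * m ^ (g + s) := hD.2 D₁ (hD₁N.trans hN)
  rw [pow_add, pow_add] at hext
  have hT1 : (chi G N : ℝ) * w ^ s ≤ (chi G D : ℝ) * m ^ s := by
    have h3 : ((chi G N : ℝ) * w ^ s) * m ^ g ≤ ((chi G D : ℝ) * m ^ s) * m ^ g := by
      calc ((chi G N : ℝ) * w ^ s) * m ^ g = ((chi G N : ℝ) * m ^ g) * w ^ s := by ring
        _ ≤ ((chi G D₁ : ℝ) * w ^ g) * w ^ s :=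
            mul_le_mul_of_nonneg_right hcmp' (by positivity)
        _ = (chi G D₁ : ℝ) * (w ^ g * w ^ s) := by ring
        _ ≤ (chi G D : ℝ) * (m ^ g * m ^ s) := hext
        _ = ((chi G D : ℝ) * m ^ s) * m ^ g := by ring
    exact le_of_mul_le_mul_right h3 (by positivity)
  have hT2 : w ^ s ≤ F * m ^ s := by
    have h1 : (chi G N : ℝ) * w ^ s ≤ (chi G N : ℝ) * (F * m ^ s) := by
      calc (chi G N : ℝ) * w ^ s ≤ (chi G D : ℝ) * m ^ s := hT1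
        _ ≤ (F * (chi G N : ℝ)) * m ^ s :=
            mul_le_mul_of_nonneg_right hbig (by positivity)
        _ = (chi G N : ℝ) * (F * m ^ s) := by ring
    exact le_of_mul_le_mul_left h1 hNpos
  have hmain : (1 - al) * w ≤ m := by
    by_contra hcon
    push Not at hcon
    have h1 : m ^ s < ((1 - al) * w) ^ s := pow_lt_pow_left₀ hcon (by linarith) (by omega)
    rw [mul_pow] at h1
    have hws : (0 : ℝ) < w ^ s := by positivity
    have h2 : F * m ^ s < F * ((1 - al) ^ s * w ^ s) := mul_lt_mul_of_pos_left h1 hFpos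
    have h5 : F * ((1 - al) ^ s * w ^ s) ≤ w ^ s := by
      calc F * ((1 - al) ^ s * w ^ s) = ((1 - al) ^ s * F) * w ^ s := by ring
        _ ≤ 1 * w ^ s := mul_le_mul_of_nonneg_right heps hws.le
        _ = w ^ s := one_mul _
    linarith
  refine ⟨D₁, hD₁N, hconn, hxt, hmain, ?_⟩
  have h2m : w ≤ 2 * m := by nlinarith
  have h6 : (chi G N : ℝ) * m ^ g ≤ (2 ^ g * (chi G D₁ : ℝ)) * m ^ g := by
    calc (chi G N : ℝ) * m ^ g ≤ (chi G D₁ : ℝ) * w ^ g := hcmp'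
      _ ≤ (chi G D₁ : ℝ) * (2 * m) ^ g :=
          mul_le_mul_of_nonneg_left (pow_le_pow_left₀ (by linarith) h2m _) (Nat.cast_nonneg _)
      _ = (2 ^ g * (chi G D₁ : ℝ)) * m ^ g := by rw [mul_pow]; ring
  have h7 : (chi G N : ℝ) ≤ 2 ^ g * (chi G D₁ : ℝ) := le_of_mul_le_mul_right h6 (by positivity)
  calc (chi G D : ℝ) ≤ F * (chi G N : ℝ) := hbig
    _ ≤ F * (2 ^ g * (chi G D₁ : ℝ)) := mul_le_mul_of_nonneg_left h7 hFpos.le
    _ = F * 2 ^ g * (chi G D₁ : ℝ) := by ring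

end Pool.Agent.QPT
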