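import Pool.Agent.QPT.FrB

/-! QPT-ClA: the base of the claim and the final contradiction.

PLAN. `claim_base`: `Tail (t-2) b R` and a neighbour `r ∈ R` of `b`: `Tail.step` gives `Tail (t-1) r ∅`, `Tail.embedding` (Helper20
Basic) contradicts `hfree` (`t - 1 + 1 = t`). `claim_final`: `RFrame.root`, `RFrame.clean` (`k = 0`): clean frame `R, T = E0 D v`, constant
`al`. Some `b ∈ T ∩ R` exists: otherwise `T ⊆ T \ R`, `16 W M chi T ≤ chi D ≤ M chi T` (`thin34` with `om (T \ R) ≤ al om D`,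
`al ≤ 1/64`), so `chi T ≤ 0`, `chi D ≤ 0`, contradiction (`chi_pos`). `b ≠ v`. `RFrame.sub` with `S = {b}`, `l = 1/2`
(`om_singleton`, `1 ≤ om D / 2`): frame `R' = cmp G (R \ {b}) v`, constant `al + 1/2 ≤ 1/2 + (2 * 0 + 1) al`, clean because
`R' ⊆ R`; `b ∉ R'`. If `b` has a neighbour in `R'`, `hcl` with `Tail.zero` gives `NCm b`, contradiction to `RClean R` (`b ∈ R`).
Otherwise `bd G R R' ⊆ {b}` (`bd_cmp`) is empty (`b` is not adjacent to `R'`), so `R' = R` by `bd_nonempty` (`R` connected, `R' ≠ R` would give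
a nonempty boundary), but `b ∈ R`, `b ∉ R'`. -/

open Finset
open scoped Classical
open Pool.Agent.Helper20.Dense Pool.Agent.QPB

namespace Pool.Agent.QPT

variable {V : Type*} [Fintype V] [DecidableEq V] (G : SimpleGraph V)

theorem claim_base {t W : ℕ} {al M : ℝ} (ht : 4 ≤ t)
    (hfree : IsEmpty (SimpleGraph.pathGraph t ↪g G)) (D : Finset V) :
    ClaimAt G W (t - 2) al M D := by
  intro R T v k b _ _ _ _ hr htail
  obtain ⟨r, hr, hbr⟩ := hr
  exfalso
  have h1 : Tail G (t - 2 + 1) r ∅ :=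
    Tail.step G htail hr hbr (Finset.empty_subset _) (fun d hd => absurd hd (Finset.notMem_empty _))
  have h2 := Tail.embedding G h1
  rw [show t - 2 + 1 + 1 = t by omega] at h2
  exact hfree.elim h2.some

/-- the final contradiction -/
theorem claim_final {t W s : ℕ} {al M : ℝ} (hP : Prm t W s al M)
    (hom : om G Finset.univ ≤ W) {g : ℕ} (hg : s ≤ g) {D : Finset V} (hD : Xt G g D)
    (hc : Conn G D) (h2 : 2 ≤ om G D) (hcl : ClaimAt G W 0 al M D) {v : V} (hv : v ∈ D)
    (hbig : (chi G D : ℝ) ≤ M * (chi G (E0 G D v) : ℝ)) : False := by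
  have hal : al ≤ 1 / 64 := by
    have h1 := hP.al_le
    have h3 := hP.al_pos
    have h4 : (4 : ℝ) ≤ (t : ℝ) := by exact_mod_cast hP.ht
    nlinarith
  have hal0 := hP.al_pos
  have hF0 := RFrame.root G hc hv hbig
  obtain ⟨R, _, hF, hcleanR⟩ := RFrame.clean G hP hom hg hD hF0 (by linarith)
  set T := E0 G D v with hT
  have hb : ∃ b, b ∈ T ∧ b ∈ R := by
    by_contra hcon
    push Not at hcon
    have hTR : T ⊆ T \ R := fun x hx => Finset.mem_sdiff.mpr ⟨hx, hcon x hx⟩
    have h3 : (om G T : ℝ) ≤ 3 / 4 * (om G D : ℝ) := by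
      have h4 : (om G T : ℝ) ≤ (om G (T \ R) : ℝ) := by exact_mod_cast om_mono G hTR
      have h5 := hF.out
      have h6 : (0 : ℝ) ≤ (om G D : ℝ) := Nat.cast_nonneg _
      nlinarith
    have h4 := thin34 G hP hg hD hF.TD h3
    have hW : (2 : ℝ) ≤ (W : ℝ) := by exact_mod_cast hP.hW
    have hM := hP.hM
    have h5 : (0 : ℝ) ≤ (chi G T : ℝ) := Nat.cast_nonneg _
    have h6 : (1 : ℝ) ≤ (chi G D : ℝ) := by exact_mod_cast chi_pos G hD.1
    have h7 : 0 ≤ M * (chi G T : ℝ) := by positivity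
    have h8 : 16 * (W : ℝ) * M * (chi G T : ℝ) = 16 * (W : ℝ) * (M * (chi G T : ℝ)) := by ring
    rw [h8] at h4
    nlinarith
  obtain ⟨b, hbT, hbR⟩ := hb
  have hbv : b ≠ v := (hF.far b hbT).1
  have hsub : RFrame G M D (cmp G (R \ {b}) v) T v (0 + al + 1 / 2) := by
    apply RFrame.sub G hF
    · intro x hx
      rw [Finset.mem_singleton] at hx
      rw [hx]
      exact hbR
    · rw [Finset.mem_singleton]
      exact fun h => hbv h.symm
    · rw [om_singleton]
      have h3 : (2 : ℝ) ≤ (om G D : ℝ) := by exact_mod_cast h2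
      push_cast
      linarith
    · linarith
  have hsubR : cmp G (R \ {b}) v ⊆ R := (cmp_subset G _ _).trans Finset.sdiff_subset
  have hbn : b ∉ cmp G (R \ {b}) v := by
    intro h
    have h3 := Finset.mem_sdiff.mp (cmp_subset G _ _ h)
    exact h3.2 (Finset.mem_singleton_self b)
  by_cases hadj : ∃ r ∈ cmp G (R \ {b}) v, G.Adj b r
  · have h3 := hcl _ T v _ b hsub (by push_cast; linarith)
      (fun x hx => hcleanR x (hsubR hx)) hbn hadj (Tail.zero G b _)
    exact hcleanR b hbR h3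
  · have hne : cmp G (R \ {b}) v ≠ R := by
      intro h
      rw [h] at hbn
      exact hbn hbR
    have hvR : v ∈ cmp G (R \ {b}) v := by
      apply mem_cmp_self G
      rw [Finset.mem_sdiff, Finset.mem_singleton]
      exact ⟨hF.vR, fun h => hbv h.symm⟩
    obtain ⟨x, hx⟩ := bd_nonempty G hF.conn hsubR ⟨v, hvR⟩ hne
    have h4 := bd_cmp G R {b} v hx
    rw [Finset.mem_singleton] at h4
    obtain ⟨y, hy, hxy⟩ := ((mem_bd G).mp hx).2
    rw [h4] at hxy
    exact hadj ⟨y, hy, hxy⟩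

end Pool.Agent.QPT
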