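import Pool.Agent.QPT.FrB

/-! QPT-ClStep: the induction step of the claim. -/

open Finset
open scoped Classical
open Pool.Agent.Helper20.Dense Pool.Agent.QPB

namespace Pool.Agent.QPT

variable {V : Type*} [Fintype V] [DecidableEq V] (G : SimpleGraph V)

theorem claim_step {t W s : ℕ} {al M : ℝ} (hP : Prm t W s al M)
    (hom : om G Finset.univ ≤ W) {g i : ℕ} (hg : s ≤ g) (hi : i + 3 ≤ t) {D : Finset V}
    (hD : Xt G g D) (hup : ClaimAt G W (i + 1) al M D)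
    (hlow : ∀ N ⊆ D, (chi G D : ℝ) ≤ 8 * (W : ℝ) * M * (chi G N : ℝ) →
      ∃ D₁ ⊆ N, Conn G D₁ ∧ Xt G s D₁ ∧ (1 - al) * (om G D : ℝ) ≤ (om G D₁ : ℝ) ∧
        ClaimAt G W (i + 1) al M D₁ ∧ ∃ v₁ ∈ D₁, (chi G D₁ : ℝ) ≤ M * (chi G (E0 G D₁ v₁) : ℝ)) :
    ClaimAt G W i al M D := by
  intro R T v k b hF hk hclean hbR hbr hTail
  obtain ⟨r0, hr0, hbr0⟩ := hbr
  by_contra hnc
  have hal := hP.al_pos
  have hi' : (i : ℝ) + 3 ≤ (t : ℝ) := by exact_mod_cast hi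
  have ht0 : (4 : ℝ) ≤ (t : ℝ) := by exact_mod_cast hP.ht
  -- numerics
  have hial : (2 * (i : ℝ) + 5) * al ≤ 1 / 8 := by
    have h1 : (2 * (i : ℝ) + 5) * al ≤ (2 * (t : ℝ)) * al :=
      mul_le_mul_of_nonneg_right (by linarith) hal.le
    have h2 := hP.al_le
    linarith
  have hi0 : (0 : ℝ) ≤ (i : ℝ) * al := by positivity
  have hal1 : al ≤ 1 / 8 := by nlinarith
  have hk2 : k + 2 * al ≤ 5 / 8 := by nlinarith
  have hom0 : (0 : ℝ) ≤ (om G D : ℝ) := Nat.cast_nonneg _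
  have hW0 : (0 : ℝ) < (W : ℝ) := by
    have := hP.hW
    exact_mod_cast (by omega : 0 < W)
  have hM0 : (0 : ℝ) < M := lt_of_lt_of_le one_pos hP.hM
  -- the set `N`
  set N : Finset V := (T ∩ R).filter (fun x => ¬ G.Adj b x) with hN
  have hNTR : N ⊆ T ∩ R := Finset.filter_subset _ _
  have hND : N ⊆ D := hNTR.trans (Finset.inter_subset_left.trans hF.TD)
  have hTR : 16 * (W : ℝ) * M * (chi G (T \ R) : ℝ) ≤ (chi G D : ℝ) := by
    refine thin34 G hP hg hD (Finset.sdiff_subset.trans hF.TD) (hF.out.trans ?_)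
    exact mul_le_mul_of_nonneg_right (by linarith) hom0
  have hbig : (chi G D : ℝ) ≤ 8 * (W : ℝ) * M * (chi G N : ℝ) := by
    have h1 : T.filter (fun x => ¬ G.Adj b x) ⊆ N ∪ (T \ R) := by
      intro x hx
      rw [Finset.mem_filter] at hx
      rw [Finset.mem_union]
      by_cases hxR : x ∈ R
      · exact Or.inl (Finset.mem_filter.mpr ⟨Finset.mem_inter.mpr ⟨hx.1, hxR⟩, hx.2⟩)
      · exact Or.inr (Finset.mem_sdiff.mpr ⟨hx.1, hxR⟩)
    have h2 : (chi G (T.filter (fun x => ¬ G.Adj b x)) : ℝ) ≤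
        (chi G N : ℝ) + (chi G (T \ R) : ℝ) := (chi_isMu G).le_add h1
    have h3 : (chi G D : ℝ) <
        4 * (W : ℝ) * M * (chi G (T.filter (fun x => ¬ G.Adj b x)) : ℝ) := not_le.mp hnc
    have h4 : 4 * (W : ℝ) * M * (chi G (T.filter (fun x => ¬ G.Adj b x)) : ℝ) ≤
        4 * (W : ℝ) * M * ((chi G N : ℝ) + (chi G (T \ R) : ℝ)) :=
      mul_le_mul_of_nonneg_left h2 (by positivity)
    have h5 : (0 : ℝ) ≤ (W : ℝ) * M * (chi G N : ℝ) := by positivity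
    nlinarith
  obtain ⟨D₁, hD₁N, hD₁c, hD₁x, hD₁o, hD₁cl, v₁, hv₁, hv₁big⟩ := hlow N hND hbig
  have hroot := RFrame.root G hD₁c hv₁ hv₁big
  obtain ⟨R₁, hR₁D, hR₁F, hR₁cl⟩ := RFrame.clean G hP hom (le_refl s) hD₁x hroot
    (by linarith : (0 : ℝ) + al ≤ 3 / 4)
  have hR₁N : R₁ ⊆ N := hR₁D.trans hD₁N
  have hR₁T : ∀ x ∈ R₁, x ∈ T := fun x hx => (Finset.mem_inter.mp (hNTR (hR₁N hx))).1
  have hR₁R : R₁ ⊆ R := fun x hx => (Finset.mem_inter.mp (hNTR (hR₁N hx))).2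
  have hbR₁ : ∀ x ∈ R₁, ¬ G.Adj b x := fun x hx => (Finset.mem_filter.mp (hR₁N hx)).2
  obtain ⟨N', Qp, hN'bd, hR₁Qp, hQpR, -, hbdQp, hbQp, hTl⟩ :=
    reach_bd G hR₁R hR₁F.conn ⟨v₁, hR₁F.vR⟩ hbR hbR₁ hTail
  have hN'R : N' ⊆ R := hN'bd.trans (bd_subset G R R₁)
  have hN'nc : ∀ x ∈ N', NCm G W M D₁ (E0 G D₁ v₁) x := by
    intro x hx
    have h1 := (mem_bd G).mp (hN'bd hx)
    refine hD₁cl R₁ (E0 G D₁ v₁) v₁ (0 + al) x hR₁F ?_ hR₁cl h1.1.2 h1.2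
      (tail_mono G (hTl x hx) hR₁Qp)
    push_cast
    nlinarith
  have hN'om : (om G N' : ℝ) ≤ 2 * al * (om G D : ℝ) := by
    have h1 := nc_thin G hP (le_refl s) hD₁x (hD₁N.trans hND)
      ((om_mono G (Finset.subset_univ D)).trans hom) (Finset.filter_subset _ _)
      (hN'R.trans hF.RD) hv₁big hN'nc
    have h2 : (1 - al) * ((1 - al) * (om G D : ℝ)) ≤ (1 - al) * (om G D₁ : ℝ) :=
      mul_le_mul_of_nonneg_left hD₁o (by linarith)
    have h3 : 0 ≤ al * al * (om G D : ℝ) := by positivity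
    nlinarith
  have hvN' : v ∉ N' := by
    intro h
    obtain ⟨y, hy, hvy⟩ := ((mem_bd G).mp (hN'bd h)).2
    exact (hF.far y (hR₁T y hy)).2 hvy
  have hv₁N' : v₁ ∉ N' := fun h => ((mem_bd G).mp (hN'bd h)).1.2 hR₁F.vR
  have hvRN' : v ∈ R \ N' := Finset.mem_sdiff.mpr ⟨hF.vR, hvN'⟩
  have hv₁R' : v₁ ∈ cmp G (R \ N') v := by
    refine hF.uns N' hN'R hvN' (hN'om.trans ?_) v₁ (Finset.mem_sdiff.mpr ⟨Finset.mem_inter.mpr
      ⟨hR₁T v₁ hR₁F.vR, hR₁R hR₁F.vR⟩, hv₁N'⟩)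
    exact mul_le_mul_of_nonneg_right (by linarith) hom0
  have hstay : ∀ a ∈ Qp, ∀ z, Reach G (R \ N') a z → z ∈ Qp := by
    intro a ha z hz
    induction hz with
    | refl => exact ha
    | @tail c d _ hcd ih =>
      by_contra hd
      have h1 := Finset.mem_sdiff.mp hcd.2
      exact h1.2 (hbdQp ((mem_bd G).mpr ⟨⟨h1.1, hd⟩, c, ih, hcd.1.symm⟩))
  have hvQp : v ∈ Qp :=
    hstay v₁ (hR₁Qp hR₁F.vR) v (reach_symm G hvRN' (Finset.mem_filter.mp hv₁R').2)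
  have hR'Qp : cmp G (R \ N') v ⊆ Qp := fun z hz =>
    hstay v hvQp z (Finset.mem_filter.mp hz).2
  have hR'R : cmp G (R \ N') v ⊆ R := (cmp_subset G _ _).trans Finset.sdiff_subset
  have hF' := RFrame.sub G hF hN'R hvN' hN'om (by linarith : k + 2 * al ≤ 3 / 4)
  have hcl' : RClean G W M D (cmp G (R \ N') v) T := fun x hx => hclean x (hR'R hx)
  have hempty : ¬ (bd G R (cmp G (R \ N') v)).Nonempty := by
    rintro ⟨x, hx⟩
    have hxN' : x ∈ N' := bd_cmp G R N' v hx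
    have h1 := (mem_bd G).mp hx
    refine hclean x h1.1.1 (hup (cmp G (R \ N') v) T v (k + 2 * al) x hF' ?_ hcl' h1.1.2 h1.2
      (tail_mono G (hTl x hxN') hR'Qp))
    push_cast
    nlinarith
  have hReq : cmp G (R \ N') v = R := by
    by_contra hne
    exact hempty (bd_nonempty G hF.conn hR'R ⟨v, mem_cmp_self G hvRN'⟩ hne)
  exact hbQp r0 (hR'Qp (by rw [hReq]; exact hr0)) hbr0

end Pool.Agent.QPT
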