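import Pool.Agent.QPT.NumB
import Pool.Agent.QPT.ClStep
import Pool.Agent.QPT.ClA

/-! QPT-Bad: every extremal set contains a bad extremal set.

PLAN. By contradiction: every `D ⊆ D0` which satisfies the other conditions has a root `v ∈ D`, `chi D ≤ M chi (E0 D v)`. Let
`Λ = 8 W M 2^(g0 + (t-2) s)`. Level `j ≤ t - 2`: `D ⊆ D0`, `Conn D`, `Xt (g0 + j s) D`, `2 ≤ om D`,
`chi D0 ≤ Λ^(t-2-j) chi D`. Claim: for all `n ≤ t - 2` and all `D` of level `j ≥ n` (`j ≤ t - 2`): `ClaimAt (t-2-n) D`. Induction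
on `n`: `n = 0`: `claim_base`. `n + 1`: `claim_step` with `i = t-2-(n+1)`, `hup`: induction hypothesis for `D`; `hlow`: `scale` (`F = 8 W M`,
`g = g0 + (j-1) s`) gives `D₁`, `om D₁ ≥ (1 - al) om D > 1` so `2 ≤ om D₁`, `chi D ≤ 8 W M 2^g chi D₁ ≤ Λ chi D₁`: level `j - 1 ≥ n`;
its root from the assumption. `Xt (g0 + j s) D` gives `Xt g0`, `Xt s` by `xt_mono` (QPB/NumA), `Λ ≥ 1`. Finally `D0` has level `t - 2`,
`ClaimAt 0 D0`, and `claim_final`. -/

open Finset
open scoped Classical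
open Pool.Agent.Helper20.Dense Pool.Agent.QPB

namespace Pool.Agent.QPT

variable {V : Type*} [Fintype V] [DecidableEq V] (G : SimpleGraph V)

theorem bad_exists {t W s g0 : ℕ} {al M : ℝ} (hP : Prm t W s al M)
    (hfree : IsEmpty (SimpleGraph.pathGraph t ↪g G)) (hom : om G Finset.univ ≤ W)
    (hg : s ≤ g0) {D0 : Finset V} (hD : Xt G (g0 + (t - 2) * s) D0) (hc : Conn G D0)
    (h2 : 2 ≤ om G D0) :
    ∃ D ⊆ D0, Conn G D ∧ Xt G g0 D ∧ 2 ≤ om G D ∧
      (chi G D0 : ℝ) ≤ (8 * (W : ℝ) * M * 2 ^ (g0 + (t - 2) * s)) ^ (t - 2) * (chi G D : ℝ) ∧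
      ∀ v ∈ D, M * (chi G (E0 G D v) : ℝ) < (chi G D : ℝ) := by
  have ht := hP.ht
  have hW : (2 : ℝ) ≤ W := by exact_mod_cast hP.hW
  have hM := hP.hM
  have hs := hP.hs
  have hal0 := hP.al_pos
  have htr : (4 : ℝ) ≤ t := by exact_mod_cast ht
  have hal64 : al ≤ 1 / 64 := by
    have h1 := hP.al_le
    nlinarith
  have hF1 : (1 : ℝ) ≤ 8 * (W : ℝ) * M := by nlinarith
  by_contra hcon
  push Not at hcon
  generalize hL : (8 * (W : ℝ) * M * 2 ^ (g0 + (t - 2) * s)) = L at hcon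
  have hL1 : 1 ≤ L := by
    rw [← hL]
    have h1 : (1 : ℝ) ≤ 2 ^ (g0 + (t - 2) * s) := one_le_pow₀ (by norm_num)
    nlinarith
  have heps : (1 - al) ^ s * (8 * (W : ℝ) * M) ≤ 1 := by
    have h1 := hP.eps
    have h3 : 0 ≤ (1 - al) ^ s := pow_nonneg (by linarith) _
    have h4 : (1 - al) ^ s * (8 * (W : ℝ) * M) ≤ (1 - al) ^ s * (16 * (W : ℝ) * M) := by
      apply mul_le_mul_of_nonneg_left _ h3
      nlinarith
    linarith
  have key : ∀ n, n ≤ t - 2 → ∀ j, n ≤ j → j ≤ t - 2 → ∀ D ⊆ D0, Conn G D →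
      Xt G (g0 + j * s) D → 2 ≤ om G D → (chi G D0 : ℝ) ≤ L ^ (t - 2 - j) * (chi G D : ℝ) →
      ClaimAt G W (t - 2 - n) al M D := by
    intro n
    induction n with
    | zero =>
      intro _ j _ _ D _ _ _ _ _
      exact claim_base G ht hfree D
    | succ n ih =>
      intro hn j hj hj2 D hDD hcD hxD h2D hchi
      have hi1 : t - 2 - (n + 1) + 1 = t - 2 - n := by omega
      refine claim_step G hP hom (g := g0 + j * s) (by omega) (by omega) hxD ?_ ?_
      · rw [hi1]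
        exact ih (by omega) j (by omega) hj2 D hDD hcD hxD h2D hchi
      · intro N hN hbig
        have hjs : g0 + j * s = (g0 + (j - 1) * s) + s := by
          obtain ⟨k, rfl⟩ : ∃ k, j = k + 1 := ⟨j - 1, by omega⟩
          rw [Nat.add_sub_cancel, Nat.add_mul, Nat.one_mul]
          omega
        rw [hjs] at hxD
        obtain ⟨D₁, hD₁N, hc₁, hx₁, hom₁, hchi₁⟩ := scale G (g := g0 + (j - 1) * s) (by omega) hs
          hal0 (by linarith) heps hxD hN hbig
        have h2₁ : 2 ≤ om G D₁ := by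
          have h5 : (2 : ℝ) ≤ (om G D : ℝ) := by exact_mod_cast h2D
          have h6 : (1 : ℝ) < (om G D₁ : ℝ) := by nlinarith
          have h7 : 1 < om G D₁ := by exact_mod_cast h6
          omega
        have hpow : (2 : ℝ) ^ (g0 + (j - 1) * s) ≤ 2 ^ (g0 + (t - 2) * s) := by
          apply pow_le_pow_right₀ (by norm_num)
          have h8 : (j - 1) * s ≤ (t - 2) * s := Nat.mul_le_mul_right _ (by omega)
          omega
        have hchi0 : (0 : ℝ) ≤ (chi G D₁ : ℝ) := Nat.cast_nonneg _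
        have hchiL : (chi G D : ℝ) ≤ L * (chi G D₁ : ℝ) := by
          refine hchi₁.trans (mul_le_mul_of_nonneg_right ?_ hchi0)
          rw [← hL]
          exact mul_le_mul_of_nonneg_left hpow (by linarith)
        have hLp : (0 : ℝ) ≤ L ^ (t - 2 - j) := pow_nonneg (by linarith) _
        have hlev : (chi G D0 : ℝ) ≤ L ^ (t - 2 - (j - 1)) * (chi G D₁ : ℝ) := by
          have h9 : t - 2 - (j - 1) = (t - 2 - j) + 1 := by omega
          rw [h9, pow_succ, mul_assoc]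
          exact hchi.trans (mul_le_mul_of_nonneg_left hchiL hLp)
        have hsub : D₁ ⊆ D0 := (hD₁N.trans hN).trans hDD
        refine ⟨D₁, hD₁N, hc₁, xt_mono G (by omega) hx₁, hom₁, ?_, ?_⟩
        · rw [hi1]
          exact ih (by omega) (j - 1) (by omega) (by omega) D₁ hsub hc₁ hx₁ h2₁ hlev
        · refine hcon D₁ hsub hc₁ (xt_mono G (by omega) hx₁) h2₁ (hlev.trans ?_)
          apply mul_le_mul_of_nonneg_right _ hchi0
          exact pow_le_pow_right₀ hL1 (by omega)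
  have h0 : (chi G D0 : ℝ) ≤ L ^ (t - 2 - (t - 2)) * (chi G D0 : ℝ) := by simp
  have hcl := key (t - 2) le_rfl (t - 2) le_rfl le_rfl D0 (Finset.Subset.refl _) hc hD h2 h0
  rw [Nat.sub_self] at hcl
  obtain ⟨v, hv, hbig⟩ := hcon D0 (Finset.Subset.refl _) hc (xt_mono G (by omega) hD) h2 (by
    have h1 : (1 : ℝ) ≤ L ^ (t - 2) := one_le_pow₀ hL1
    have h3 : (0 : ℝ) ≤ (chi G D0 : ℝ) := Nat.cast_nonneg _
    nlinarith)
  exact claim_final G hP hom (g := g0 + (t - 2) * s) (by omega) hD hc h2 hcl hv hbig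

end Pool.Agent.QPT
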