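import Mathlib
import Pool.Agent.QPB.Comp
import Pool.Agent.QPB.Num
import Pool.Agent.QPB.ReachB
import Pool.Agent.QPB.PBd

/-! Definitions for project QPT: for every `t` the graphs without an induced path on `t` vertices
are quasi-polynomially chi-bounded, `chi ≤ omega ^ (C_t log omega)`.

`om`, `chi`, `Tail`, `Reach`, `Conn`, `Extr` are in Helper20/Dense/{Basic,Chi}, `bd`, `cmp`, `Xt`, `Full` in
QPB/Defs, facts in QPB/CompA, CompB, NumA. -/

open Finset
open scoped Classical
open Pool.Agent.Helper20.Dense Pool.Agent.QPB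

namespace Pool.Agent.QPT

variable {V : Type*} [Fintype V] [DecidableEq V] (G : SimpleGraph V)

/-- the parameters: `t` (length of the path), `W` (clique number), `s` (exponent of one change of
scale), `al`, `M` (reciprocal of the density of roots) -/
structure Prm (t W s : ℕ) (al M : ℝ) : Prop where
  ht : 4 ≤ t
  hW : 2 ≤ W
  hs : 1 ≤ s
  al_pos : 0 < al
  al_le : 16 * (t : ℝ) * al ≤ 1
  hM : 1 ≤ M
  eps : (1 - al) ^ s * (16 * (W : ℝ) * M) ≤ 1

/-- `v` is nearly complete to `T` (relative to `D`) -/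
def NCm (W : ℕ) (M : ℝ) (D T : Finset V) (v : V) : Prop :=
  4 * (W : ℝ) * M * (chi G (T.filter (fun x => ¬ G.Adj v x)) : ℝ) ≤ (chi G D : ℝ)

/-- the vertices `u` of `D` which are not adjacent to `v` and are not separated from `v` in `D` by a set of
clique number at most `3/4 om D` -/
noncomputable def E0 (D : Finset V) (v : V) : Finset V :=
  D.filter (fun u => u ≠ v ∧ ¬ G.Adj v u ∧ ∀ S ⊆ D, v ∉ S → u ∉ S →
    (om G S : ℝ) ≤ 3 / 4 * (om G D : ℝ) → u ∈ cmp G (D \ S) v)

/-- rooted frames: `R` is a connected region containing the root `v`, the vertices of `T` are far from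
`v`, and no set of small clique number separates a vertex of `T` from `v` in `R` -/
structure RFrame (M : ℝ) (D R T : Finset V) (v : V) (k : ℝ) : Prop where
  RD : R ⊆ D
  TD : T ⊆ D
  vR : v ∈ R
  conn : Conn G R
  far : ∀ x ∈ T, x ≠ v ∧ ¬ G.Adj v x
  big : (chi G D : ℝ) ≤ M * (chi G T : ℝ)
  out : (om G (T \ R) : ℝ) ≤ k * (om G D : ℝ)
  uns : ∀ S ⊆ R, v ∉ S → (om G S : ℝ) ≤ (3 / 4 - k) * (om G D : ℝ) →
    ∀ u ∈ (T ∩ R) \ S, u ∈ cmp G (R \ S) v

/-- clean regions: no vertex of `R` is nearly complete to `T` -/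
def RClean (W : ℕ) (M : ℝ) (D R T : Finset V) : Prop := ∀ x ∈ R, ¬ NCm G W M D T x

/-- the claim for tails of length `i` and frames in `D` -/
def ClaimAt (W i : ℕ) (al M : ℝ) (D : Finset V) : Prop :=
  ∀ (R T : Finset V) (v : V) (k : ℝ) (b : V), RFrame G M D R T v k →
    k ≤ 1 / 2 + (2 * (i : ℝ) + 1) * al → RClean G W M D R T → b ∉ R → (∃ r ∈ R, G.Adj b r) →
    Tail G i b R → NCm G W M D T b

/-- the core: no set of small chromatic number cuts `u` off a full component -/
noncomputable def T0 (W : ℕ) (N : ℝ) (D : Finset V) : Finset V :=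
  D.filter (fun u => ∀ S ⊆ D, u ∉ S → N * (chi G S : ℝ) ≤ (chi G D : ℝ) →
    Full G W D (cmp G (D \ S) u))

/-- `x 0, ..., x (k-1)` is an induced path without pairs in `E` (except for consecutive vertices) -/
def GP (E : V → V → Prop) (k : ℕ) (x : ℕ → V) : Prop :=
  ∀ i j, i < j → j < k → x i ≠ x j ∧ (G.Adj (x i) (x j) ↔ i + 1 = j) ∧
    (i + 1 ≠ j → ¬ E (x i) (x j))

/-- the statement of the induction on `k`: extremal sets in graphs without induced `P_t` contain an induced path on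
`k` vertices which avoids the relation `E`, if all sets `{z | E z x}` have small chromatic number -/
def GG (t k : ℕ) : Prop :=
  ∃ c a : ℕ, 1 ≤ c ∧ ∀ (V : Type) [Fintype V] [DecidableEq V] (G : SimpleGraph V),
    IsEmpty (SimpleGraph.pathGraph t ↪g G) → ∀ W : ℕ, 2 ≤ W → om G Finset.univ ≤ W →
    ∀ D : Finset V, Xt G (c * (Nat.log 2 W + 1)) D → 2 ≤ om G D → ∀ E : V → V → Prop,
    (∀ x ∈ D, (2 : ℝ) ^ (a * (Nat.log 2 W + 1)) * (chi G (D.filter (fun z => E z x)) : ℝ) ≤
      (chi G D : ℝ)) →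
    ∃ x : ℕ → V, GP G E k x ∧ ∀ i < k, x i ∈ D

end Pool.Agent.QPT
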