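import Pool.Agent.QPT.Defs

/-! QPT-FrA: sub-frames.

`RFrame.sub`: `R' = cmp G (R \ S) v` contains `v` (`mem_cmp_self`), is connected (`conn_cmp`). `out`: `T \ R' ⊆ (T \ R) ∪ S`
because `u ∈ (T ∩ R) \ S` is in `R'` by `uns` (`l ≤ 3/4 - k`). `uns`: for `S' ⊆ R'`, `u ∈ (T ∩ R') \ S'`:
`uns` for `S ∪ S'` gives `Reach G (R \ (S ∪ S')) v u`; by induction along the walk all its
vertices are in `R' \ S'`. -/

open Finset
open scoped Classical
open Pool.Agent.Helper20.Dense Pool.Agent.QPB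

namespace Pool.Agent.QPT

variable {V : Type*} [Fintype V] [DecidableEq V] (G : SimpleGraph V)

theorem RFrame.sub {M : ℝ} {D R T S : Finset V} {v : V} {k l : ℝ} (hF : RFrame G M D R T v k)
    (hS : S ⊆ R) (hv : v ∉ S) (hl : (om G S : ℝ) ≤ l * (om G D : ℝ)) (hkl : k + l ≤ 3 / 4) :
    RFrame G M D (cmp G (R \ S) v) T v (k + l) := by
  have hvRS : v ∈ R \ S := Finset.mem_sdiff.mpr ⟨hF.vR, hv⟩
  have hsub : cmp G (R \ S) v ⊆ R \ S := cmp_subset G _ _
  have hsubR : cmp G (R \ S) v ⊆ R := fun x hx => (Finset.mem_sdiff.mp (hsub hx)).1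
  have hom0 : (0 : ℝ) ≤ (om G D : ℝ) := Nat.cast_nonneg _
  have hS34 : (om G S : ℝ) ≤ (3 / 4 - k) * (om G D : ℝ) :=
    hl.trans (mul_le_mul_of_nonneg_right (by linarith) hom0)
  refine ⟨hsubR.trans hF.RD, hF.TD, mem_cmp_self G hvRS, conn_cmp G hvRS, hF.far, hF.big, ?_, ?_⟩
  · have h1 : T \ cmp G (R \ S) v ⊆ (T \ R) ∪ S := by
      intro u hu
      rw [Finset.mem_sdiff] at hu
      rw [Finset.mem_union, Finset.mem_sdiff]
      by_contra hcon
      push Not at hcon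
      have huR : u ∈ R := hcon.1 hu.1
      exact hu.2 (hF.uns S hS hv hS34 u
        (Finset.mem_sdiff.mpr ⟨Finset.mem_inter.mpr ⟨hu.1, huR⟩, hcon.2⟩))
    have h2 : (om G (T \ cmp G (R \ S) v) : ℝ) ≤ (om G (T \ R) : ℝ) + (om G S : ℝ) := by
      exact_mod_cast (om_mono G h1).trans (om_union_le G _ _)
    have h3 := hF.out
    linarith
  · intro S' hS' hv' hom' u hu
    rw [Finset.mem_sdiff, Finset.mem_inter] at hu
    have hS'R : S' ⊆ R := hS'.trans hsubR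
    have h1 : (om G (S ∪ S') : ℝ) ≤ (3 / 4 - k) * (om G D : ℝ) := by
      have h2 : (om G (S ∪ S') : ℝ) ≤ (om G S : ℝ) + (om G S' : ℝ) := by
        exact_mod_cast om_union_le G S S'
      linarith
    have huS : u ∉ S := (Finset.mem_sdiff.mp (hsub hu.1.2)).2
    have h3 := hF.uns (S ∪ S') (Finset.union_subset hS hS'R)
      (by rw [Finset.mem_union]; exact fun h => h.elim hv hv') h1 u
      (Finset.mem_sdiff.mpr ⟨Finset.mem_inter.mpr ⟨hu.1.1, hsubR hu.1.2⟩, by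
        rw [Finset.mem_union]
        exact fun h => h.elim huS hu.2⟩)
    have h4 : Reach G (R \ (S ∪ S')) v u := (Finset.mem_filter.mp h3).2
    have hgen : ∀ w, Reach G (R \ (S ∪ S')) v w →
        Reach G (cmp G (R \ S) v \ S') v w ∧ w ∈ cmp G (R \ S) v := by
      intro w hw
      induction hw with
      | refl => exact ⟨Relation.ReflTransGen.refl, mem_cmp_self G hvRS⟩
      | @tail c d _ hcd ih =>
        obtain ⟨hdR, hdS⟩ := Finset.mem_sdiff.mp hcd.2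
        rw [Finset.mem_union, not_or] at hdS
        have hdRS : d ∈ R \ S := Finset.mem_sdiff.mpr ⟨hdR, hdS.1⟩
        have hd : d ∈ cmp G (R \ S) v :=
          Finset.mem_filter.mpr ⟨hdRS, ((Finset.mem_filter.mp ih.2).2).tail ⟨hcd.1, hdRS⟩⟩
        exact ⟨ih.1.tail ⟨hcd.1, Finset.mem_sdiff.mpr ⟨hd, hdS.2⟩⟩, hd⟩
    exact Finset.mem_filter.mpr ⟨Finset.mem_sdiff.mpr ⟨hu.1.2, hu.2⟩, (hgen u h4).1⟩

end Pool.Agent.QPT
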