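import Pool.Agent.QPT.NumA
import Pool.Agent.QPT.FrA

/-! QPT-FrB: frames from roots, clean frames.

`RFrame.root`: directly from the definition of `E0`. `RFrame.clean`: `S = R.filter (NCm G W M D T)`;
`v ∉ S` because `T.filter (fun x => ¬ Adj v x) = T` (`far`), `om S ≤ al om D` by `nc_thin`;
`R' = cmp G (R \ S) v`, `RFrame.sub` with `l = al`; a vertex of `R' ⊆ R \ S` is not `NCm`. -/

open Finset
open scoped Classical
open Pool.Agent.Helper20.Dense Pool.Agent.QPB

namespace Pool.Agent.QPT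

variable {V : Type*} [Fintype V] [DecidableEq V] (G : SimpleGraph V)

theorem RFrame.root {M : ℝ} {D : Finset V} {v : V} (hD : Conn G D) (hv : v ∈ D)
    (hbig : (chi G D : ℝ) ≤ M * (chi G (E0 G D v) : ℝ)) : RFrame G M D D (E0 G D v) v 0 := by
  have hsub : E0 G D v ⊆ D := Finset.filter_subset _ _
  refine ⟨Finset.Subset.refl _, hsub, hv, hD, ?_, hbig, ?_, ?_⟩
  · intro x hx
    have h := (Finset.mem_filter.mp hx).2
    exact ⟨h.1, h.2.1⟩
  · have h1 : E0 G D v \ D = ∅ := Finset.sdiff_eq_empty_iff_subset.mpr hsub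
    rw [h1]
    have h2 : om G (∅ : Finset V) = 0 := by
      obtain ⟨K, hK, _, hc⟩ := exists_clique G (∅ : Finset V)
      rw [← hc, Finset.card_eq_zero]
      exact Finset.subset_empty.mp hK
    rw [h2]
    simp
  · intro S hS hvS hom u hu
    rw [Finset.mem_sdiff, Finset.mem_inter] at hu
    have h := (Finset.mem_filter.mp hu.1.1).2
    refine h.2.2 S hS hvS hu.2 ?_
    rwa [sub_zero] at hom

theorem RFrame.clean {t W s : ℕ} {al M : ℝ} (hP : Prm t W s al M)
    (hom : om G Finset.univ ≤ W) {g : ℕ} (hg : s ≤ g) {D R T : Finset V} {v : V} {k : ℝ}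
    (hD : Xt G g D) (hF : RFrame G M D R T v k) (hk : k + al ≤ 3 / 4) :
    ∃ R' ⊆ R, RFrame G M D R' T v (k + al) ∧ RClean G W M D R' T := by
  have hWR : (2 : ℝ) ≤ (W : ℝ) := by exact_mod_cast hP.hW
  have hM := hP.hM
  have hD1 : (1 : ℝ) ≤ (chi G D : ℝ) := by exact_mod_cast chi_pos G hD.1
  set S : Finset V := R.filter (fun x => NCm G W M D T x) with hS
  have hSR : S ⊆ R := Finset.filter_subset _ _
  have hvS : v ∉ S := by
    intro hv
    have h1 : NCm G W M D T v := (Finset.mem_filter.mp hv).2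
    unfold NCm at h1
    have h2 : T.filter (fun x => ¬ G.Adj v x) = T :=
      Finset.filter_true_of_mem fun x hx => (hF.far x hx).2
    rw [h2] at h1
    have h3 := hF.big
    have h4 : 0 ≤ M * (chi G T : ℝ) := by positivity
    nlinarith
  have h1 : (om G S : ℝ) + (1 - al) * (om G D : ℝ) ≤ (om G D : ℝ) :=
    nc_thin G hP hg hD (Finset.Subset.refl _)
      ((om_mono G (Finset.subset_univ D)).trans hom) hF.TD (hSR.trans hF.RD) hF.big
      (fun b hb => (Finset.mem_filter.mp hb).2)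
  have h2 : (om G S : ℝ) ≤ al * (om G D : ℝ) := by linarith
  have hsub : cmp G (R \ S) v ⊆ R \ S := cmp_subset G _ _
  refine ⟨cmp G (R \ S) v, fun x hx => (Finset.mem_sdiff.mp (hsub hx)).1,
    RFrame.sub G hF hSR hvS h2 hk, ?_⟩
  intro x hx hnc
  have hx' := Finset.mem_sdiff.mp (hsub hx)
  exact hx'.2 (Finset.mem_filter.mpr ⟨hx'.1, hnc⟩)

end Pool.Agent.QPT
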