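import Pool.Agent.QPT.Defs

/-! QPT-GgTwo: the start of the induction on `k`.

PLAN. `c = 1`, `a = 0`. `om D ≥ 2` gives two adjacent vertices `u, w` in `D` (`exists_clique`, `Finset.one_lt_card`); `x 0 = u`, `x i = w` for
`i ≥ 1`; `GP G E 2 x` only concerns the pair `(0, 1)`. -/

open Finset
open scoped Classical
open Pool.Agent.Helper20.Dense Pool.Agent.QPB

namespace Pool.Agent.QPT

theorem gg_two (t : ℕ) : GG t 2 := by
  refine ⟨1, 0, le_rfl, ?_⟩
  intro V _ _ G _ W _ _ D _ h2 E _
  obtain ⟨S, hS, hc, h1⟩ := exists_clique G D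
  have h3 : 1 < S.card := by omega
  obtain ⟨u, hu, w, hw, huw⟩ := Finset.one_lt_card.mp h3
  have hadj : G.Adj u w := hc (by exact_mod_cast hu) (by exact_mod_cast hw) huw
  refine ⟨fun i => if i = 0 then u else w, ?_, ?_⟩
  · intro i j hij hj
    have hi : i = 0 := by omega
    have hj1 : j = 1 := by omega
    subst hi
    subst hj1
    refine ⟨by simpa using huw, by simpa using hadj, fun h => absurd rfl h⟩
  · intro i _
    show (if i = 0 then u else w) ∈ D
    split_ifs
    · exact hS hu
    · exact hS hw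

end Pool.Agent.QPT
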