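import Pool.Agent.QPT.Step

/-! QPT-Main: the final theorem.

PLAN. `GG t t` for `t ≥ 4` (for `t < 4` a graph without induced `P_t` has no induced `P_4`: `pathGraph t` embeds into
`pathGraph 4`). If `G` has no vertices, trivial. `W = cliqueNum`: if `W ≤ 1` the graph is edgeless (`chi_le_one_of_om`, QPB/CompB).
For `W ≥ 2`: `QPB.start` (NumC) with `g = c (log 2 W + 1)`: `D` with `Xt g D`, `chi univ * om D ^ g ≤ chi D * om univ ^ g`. If `om D ≥ 2`, `GG t t`
with `E = fun _ _ => False` gives an induced path on `t` vertices: contradiction. So `om D ≤ 1`, `chi D ≤ 1` and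
`chi univ ≤ W ^ g`. See the end of QPB/Claim.lean or QPB/Six.lean for the passage to `Colorable`. -/

open Finset
open scoped Classical
open Pool.Agent.Helper20.Dense Pool.Agent.QPB

namespace Pool.Agent.QPT

private lemma gp_embedding {V : Type*} [Fintype V] [DecidableEq V] (G : SimpleGraph V)
    {E : V → V → Prop} {k : ℕ} {x : ℕ → V} (h : GP G E k x) :
    Nonempty (SimpleGraph.pathGraph k ↪g G) := by
  refine ⟨⟨⟨fun j => x j.val, ?_⟩, ?_⟩⟩
  · intro j l hjl
    by_contra hne
    rcases lt_or_gt_of_ne hne with hlt | hlt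
    · exact (h j.val l.val hlt l.isLt).1 hjl
    · exact (h l.val j.val hlt j.isLt).1 hjl.symm
  · intro j l
    simp only [Function.Embedding.coeFn_mk, SimpleGraph.pathGraph_adj]
    rcases lt_trichotomy j.val l.val with hlt | heq | hlt
    · rw [(h j.val l.val hlt l.isLt).2.1]
      omega
    · rw [heq]
      constructor
      · intro h3
        exact absurd rfl h3.ne
      · intro h3
        omega
    · rw [G.adj_comm, (h l.val j.val hlt j.isLt).2.1]
      omega

private lemma isCol_univ_iff {V : Type*} [Fintype V] (G : SimpleGraph V) {n : ℕ} :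
    IsCol G Finset.univ n ↔ G.Colorable n := by
  constructor
  · rintro ⟨c, h1, h2⟩
    exact ⟨SimpleGraph.Coloring.mk (fun x => (⟨c x, h1 x (Finset.mem_univ x)⟩ : Fin n))
      (fun {x y} hxy heq => h2 x (Finset.mem_univ x) y (Finset.mem_univ y) hxy
        (congrArg Fin.val heq))⟩
  · rintro ⟨c⟩
    exact ⟨fun x => (c x).val, fun x _ => (c x).isLt, fun x _ y _ hxy heq =>
      c.valid hxy (Fin.ext heq)⟩

private lemma path_mono {t u : ℕ} (h : t ≤ u) :
    Nonempty (SimpleGraph.pathGraph t ↪g SimpleGraph.pathGraph u) := by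
  refine ⟨⟨⟨fun j => ⟨j.val, lt_of_lt_of_le j.isLt h⟩, ?_⟩, ?_⟩⟩
  · intro j l hjl
    apply Fin.ext
    simpa using hjl
  · intro j l
    simp only [Function.Embedding.coeFn_mk, SimpleGraph.pathGraph_adj]

private lemma quasi_four {t : ℕ} (ht : 4 ≤ t) : ∃ C : ℕ, ∀ (V : Type) [Fintype V]
    (G : SimpleGraph V), IsEmpty (SimpleGraph.pathGraph t ↪g G) →
      G.Colorable (G.cliqueNum ^ (C * (Nat.log 2 G.cliqueNum + 1))) := by
  obtain ⟨c, a, hc, hgg⟩ := gg_all ht (k := t) (by omega)
  refine ⟨c, ?_⟩
  intro V _ G hfree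
  classical
  have hom : om G Finset.univ ≤ G.cliqueNum := om_univ_le G
  rcases Nat.lt_or_ge G.cliqueNum 2 with h2 | h2
  · have h3 : chi G Finset.univ ≤ 1 := chi_le_one_of_om G (by omega)
    rw [← isCol_univ_iff, ← chi_le_iff]
    rcases Nat.eq_zero_or_pos (om G Finset.univ) with h4 | h4
    · have h5 : (Finset.univ : Finset V) = ∅ := by
        by_contra hne
        have := om_pos G (Finset.nonempty_iff_ne_empty.mpr hne)
        omega
      rw [h5, chi_empty]
      exact Nat.zero_le _
    · have h5 : G.cliqueNum = 1 := by omega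
      rw [h5, one_pow]
      exact h3
  · set W := G.cliqueNum with hW
    rw [← isCol_univ_iff, ← chi_le_iff]
    rcases (Finset.univ : Finset V).eq_empty_or_nonempty with he | hne
    · rw [he, chi_empty]
      exact Nat.zero_le _
    · have hg : 1 ≤ c * (Nat.log 2 W + 1) :=
        Nat.one_le_iff_ne_zero.mpr (Nat.mul_ne_zero (by omega) (by omega))
      obtain ⟨D, _, hD, hcmp⟩ := start G hg hne
      have h1 : om G D ≤ 1 := by
        by_contra hcon
        push Not at hcon
        obtain ⟨x, hx, _⟩ := hgg V G hfree W h2 hom D hD hcon (fun _ _ => False) (by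
          intro x _
          rw [Finset.filter_false, chi_empty]
          simp)
        obtain ⟨e⟩ := gp_embedding G hx
        exact hfree.false e
      have h2' : 1 ≤ om G D := om_pos G hD.1
      have h3 : om G D = 1 := by omega
      have h4 : chi G D ≤ 1 := chi_le_one_of_om G h1
      rw [h3] at hcmp
      have h5 : (chi G Finset.univ : ℝ) ≤ (W : ℝ) ^ (c * (Nat.log 2 W + 1)) := by
        calc (chi G Finset.univ : ℝ)
            = (chi G Finset.univ : ℝ) * ((1 : ℕ) : ℝ) ^ (c * (Nat.log 2 W + 1)) := by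
              simp
          _ ≤ (chi G D : ℝ) * (om G Finset.univ : ℝ) ^ (c * (Nat.log 2 W + 1)) := hcmp
          _ ≤ 1 * (W : ℝ) ^ (c * (Nat.log 2 W + 1)) := by
              apply mul_le_mul _ _ (by positivity) (by norm_num)
              · exact_mod_cast h4
              · exact pow_le_pow_left₀ (by positivity) (by exact_mod_cast hom) _
          _ = _ := one_mul _
      exact_mod_cast h5

theorem quasi_all (t : ℕ) : ∃ C : ℕ, ∀ (V : Type) [Fintype V] (G : SimpleGraph V),
    IsEmpty (SimpleGraph.pathGraph t ↪g G) →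
      G.Colorable (G.cliqueNum ^ (C * (Nat.log 2 G.cliqueNum + 1))) := by
  obtain ⟨C, hC⟩ := quasi_four (t := max t 4) (le_max_right t 4)
  refine ⟨C, ?_⟩
  intro V _ G hfree
  apply hC V G
  obtain ⟨e⟩ := path_mono (le_max_left t 4)
  exact ⟨fun f => hfree.false (f.comp e)⟩

end Pool.Agent.QPT
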