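import Pool.Agent.QPT.Defs
import Pool.Agent.QPB.NumA

/-! QPT-NumA: smallness.

PLAN. `thin`: `chi_le_pow` (QPB/NumA) with `β = 1 - al`, `(1 - al)^g ≤ (1 - al)^s`, `Prm.eps` (see `chi_small` in
QPB/NumA, same proof). `thin34`: `3/4 ≤ 1 - al` because `al ≤ 1/64`. `nc_thin`: copy the proof of `nc_thin` in QPB/NumB:
`K` a largest clique of `B` (`exists_clique`), `T' = T.filter (fun x => ∀ b ∈ K, Adj b x)`, `chi T ≤ chi T' + sum over b ∈ K`
(`IsMu.le_add`, `IsMu.biUnion_le`), the sum is at most `W chi D / (4 W M) = chi D / (4 M)`, so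
`M chi T' ≥ 3/4 chi D`, so `om T' > (1 - al) om D` by `thin`, and `om B + om T' ≤ om D'` (`om_add_le`). -/

open Finset
open scoped Classical
open Pool.Agent.Helper20.Dense Pool.Agent.QPB

namespace Pool.Agent.QPT

variable {V : Type*} [Fintype V] [DecidableEq V] (G : SimpleGraph V)

theorem thin {t W s : ℕ} {al M : ℝ} (hP : Prm t W s al M) {g : ℕ} (hg : s ≤ g) {D X : Finset V}
    (hD : Xt G g D) (hX : X ⊆ D) (h : (om G X : ℝ) ≤ (1 - al) * (om G D : ℝ)) :
    16 * (W : ℝ) * M * (chi G X : ℝ) ≤ (chi G D : ℝ) := by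
  have ht : (4 : ℝ) ≤ t := by exact_mod_cast hP.ht
  have hal := hP.al_pos
  have hal1 : al ≤ 1 := by
    have := hP.al_le
    nlinarith
  have hb : (0 : ℝ) ≤ 1 - al := by linarith
  have h1 := chi_le_pow G hD hX hb h
  have h2 : (1 - al) ^ g ≤ (1 - al) ^ s := pow_le_pow_of_le_one hb (by linarith) hg
  have h3 := hP.eps
  have hM := hP.hM
  have hd : (0 : ℝ) ≤ (chi G D : ℝ) := by positivity
  have h4 : (chi G X : ℝ) ≤ (1 - al) ^ s * (chi G D : ℝ) :=
    h1.trans (mul_le_mul_of_nonneg_right h2 hd)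
  have hM0 : (0 : ℝ) ≤ 16 * (W : ℝ) * M := by positivity
  calc 16 * (W : ℝ) * M * (chi G X : ℝ)
      ≤ 16 * (W : ℝ) * M * ((1 - al) ^ s * (chi G D : ℝ)) :=
        mul_le_mul_of_nonneg_left h4 hM0
    _ = ((1 - al) ^ s * (16 * (W : ℝ) * M)) * (chi G D : ℝ) := by ring
    _ ≤ 1 * (chi G D : ℝ) := mul_le_mul_of_nonneg_right h3 hd
    _ = (chi G D : ℝ) := one_mul _

theorem thin34 {t W s : ℕ} {al M : ℝ} (hP : Prm t W s al M) {g : ℕ} (hg : s ≤ g) {D X : Finset V}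
    (hD : Xt G g D) (hX : X ⊆ D) (h : (om G X : ℝ) ≤ 3 / 4 * (om G D : ℝ)) :
    16 * (W : ℝ) * M * (chi G X : ℝ) ≤ (chi G D : ℝ) := by
  refine thin G hP hg hD hX (h.trans ?_)
  have ht : (4 : ℝ) ≤ t := by exact_mod_cast hP.ht
  have hal := hP.al_pos
  have hal1 : al ≤ 1 / 4 := by
    have := hP.al_le
    nlinarith
  exact mul_le_mul_of_nonneg_right (by linarith) (by positivity)

theorem nc_thin {t W s : ℕ} {al M : ℝ} (hP : Prm t W s al M) {g : ℕ} (hg : s ≤ g)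
    {D D' T B : Finset V} (hD : Xt G g D) (hDD : D ⊆ D') (hW : om G D' ≤ W) (hT : T ⊆ D)
    (hB : B ⊆ D') (hbig : (chi G D : ℝ) ≤ M * (chi G T : ℝ)) (hnc : ∀ b ∈ B, NCm G W M D T b) :
    (om G B : ℝ) + (1 - al) * (om G D : ℝ) ≤ (om G D' : ℝ) := by
  obtain ⟨K, hKB, hKc, hK⟩ := exists_clique G B
  have hmu : IsMu (fun X : Finset V => (chi G X : ℝ)) := chi_isMu G
  have hW2 : (2 : ℝ) ≤ W := by exact_mod_cast hP.hW
  have hM := hP.hM
  have hKW : (K.card : ℝ) ≤ W := by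
    have h1 := card_le_om G (hKB.trans hB) hKc
    exact_mod_cast h1.trans hW
  set T' := T.filter (fun x => ∀ b ∈ K, G.Adj b x) with hT'
  have h1 : T ⊆ T' ∪ K.biUnion (fun b => T.filter (fun x => ¬ G.Adj b x)) := by
    intro x hx
    rw [Finset.mem_union]
    by_cases h2 : ∀ b ∈ K, G.Adj b x
    · left
      exact Finset.mem_filter.mpr ⟨hx, h2⟩
    · right
      push Not at h2
      obtain ⟨b, hb, hbx⟩ := h2
      exact Finset.mem_biUnion.mpr ⟨b, hb, Finset.mem_filter.mpr ⟨hx, hbx⟩⟩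
  have h2 : (chi G T : ℝ) ≤ chi G T' + ∑ b ∈ K, (chi G (T.filter (fun x => ¬ G.Adj b x)) : ℝ) := by
    have h3 := hmu.le_add h1
    have h4 := hmu.biUnion_le K (fun b => T.filter (fun x => ¬ G.Adj b x))
    linarith
  set Z : ℝ := ∑ b ∈ K, (chi G (T.filter (fun x => ¬ G.Adj b x)) : ℝ) with hZ
  have hcD0 : (1 : ℝ) ≤ chi G D := by exact_mod_cast chi_pos G hD.1
  have h5 : 4 * (W : ℝ) * M * Z ≤ W * chi G D := by
    rw [hZ, Finset.mul_sum]
    calc ∑ b ∈ K, 4 * (W : ℝ) * M * (chi G (T.filter (fun x => ¬ G.Adj b x)) : ℝ)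
        ≤ ∑ _b ∈ K, (chi G D : ℝ) := Finset.sum_le_sum (fun b hb => hnc b (hKB hb))
      _ = K.card * chi G D := by rw [Finset.sum_const, nsmul_eq_mul]
      _ ≤ W * chi G D := mul_le_mul_of_nonneg_right hKW (by positivity)
  have h6 : 4 * M * Z ≤ chi G D := by
    have h7 : (W : ℝ) * (4 * M * Z) ≤ W * chi G D := by
      calc (W : ℝ) * (4 * M * Z) = 4 * (W : ℝ) * M * Z := by ring
        _ ≤ _ := h5
    exact le_of_mul_le_mul_left h7 (by linarith)
  have h8 : 3 * (chi G D : ℝ) ≤ 4 * M * chi G T' := by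
    have h9 : 4 * M * chi G T ≤ 4 * M * (chi G T' + Z) :=
      mul_le_mul_of_nonneg_left h2 (by positivity)
    nlinarith
  have h11 : (1 - al) * (om G D : ℝ) < (om G T' : ℝ) := by
    by_contra hcon
    push Not at hcon
    have h12 := thin G hP hg hD ((Finset.filter_subset _ _).trans hT) hcon
    have h13 : (0 : ℝ) ≤ M * (chi G T' : ℝ) := by positivity
    have h14 : 2 * (M * (chi G T' : ℝ)) ≤ W * (M * (chi G T' : ℝ)) :=
      mul_le_mul_of_nonneg_right hW2 h13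
    nlinarith
  have hT'T : T' ⊆ T := Finset.filter_subset _ _
  have h13 := om_add_le G (D := D') (hKB.trans hB) ((hT'T.trans hT).trans hDD)
    (fun a ha b hb => (Finset.mem_filter.mp hb).2 a ha)
  have h14 := card_le_om G (Finset.Subset.refl K) hKc
  have h15 : (om G B : ℝ) + om G T' ≤ om G D' := by
    have : om G B + om G T' ≤ om G D' := by omega
    exact_mod_cast this
  linarith

end Pool.Agent.QPT
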