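import Pool.Agent.QPT.Defs

/-! QPT-Par: choice of the parameters.

PLAN. With `l = Nat.log 2 W + 1`: `W < 2^l`, `l ≥ 1`. `al = 1/(16 t)`, `(1 - al)^(16 t) ≤ 1/2`
(`1 - x ≤ exp (-x)`, or Bernoulli `one_add_mul_le_pow` for the inverse), so `(1 - al)^(16 t m l) ≤ 2^(-m l)`.
`M = 2^((a + c + 4) l) ≥ 8 W 2^(c l) 2^(a l)`. `s = 16 t (a + c + 9) l`: `16 W M ≤ 2^((a + c + 9) l)`.
`g0 = c l + s + 3 (2 t + k + 5) l`: `(3/4)^3 ≤ 1/2`, `8 t W k ≤ 2^((2 t + k + 5) l)` (`t ≤ 2^t`, `k ≤ 2^k`). Then `g0 + (t - 2) s = c' l` with an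
explicit natural number `c'`, and the last bound holds with
`a' = (4 + (a + c + 4) + c') (t - 2) + (a + c + 4) + (2 t + k + 5) + 1`. -/

open Finset
open scoped Classical
open Pool.Agent.Helper20.Dense Pool.Agent.QPB

namespace Pool.Agent.QPT

private lemma pow_base (t : ℕ) (ht : 4 ≤ t) : (1 - 1 / (16 * (t : ℝ))) ^ (16 * t) ≤ 1 / 2 := by
  have htR : (4 : ℝ) ≤ (t : ℝ) := by exact_mod_cast ht
  have h0 : 0 ≤ 1 - 1 / (16 * (t : ℝ)) := by
    have : 1 / (16 * (t : ℝ)) ≤ 1 := by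
      rw [div_le_one (by linarith)]
      linarith
    linarith
  have h1 : 1 - 1 / (16 * (t : ℝ)) ≤ Real.exp (-(1 / (16 * (t : ℝ)))) := by
    have := Real.add_one_le_exp (-(1 / (16 * (t : ℝ))))
    linarith
  calc (1 - 1 / (16 * (t : ℝ))) ^ (16 * t)
      ≤ (Real.exp (-(1 / (16 * (t : ℝ))))) ^ (16 * t) := pow_le_pow_left₀ h0 h1 _
    _ = Real.exp (-1) := by
        rw [← Real.exp_nat_mul]
        congr 1
        push_cast
        field_simp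
    _ ≤ 1 / 2 := by
        rw [Real.exp_neg]
        have h2 : (2 : ℝ) ≤ Real.exp 1 := by
          have := Real.add_one_le_exp (1 : ℝ)
          linarith
        rw [one_div]
        exact inv_anti₀ (by norm_num) h2

private lemma mul_pow_le {x y : ℝ} {m n : ℕ} (hy : 0 ≤ y) (hx : x ≤ 2 ^ m)
    (hy2 : y ≤ 2 ^ n) : x * y ≤ 2 ^ (m + n) := by
  rw [pow_add]
  exact mul_le_mul hx hy2 hy (by positivity)

theorem exists_prm (t k c a : ℕ) (ht : 4 ≤ t) :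
    ∃ c' a' : ℕ, 1 ≤ c' ∧ ∀ W : ℕ, 2 ≤ W → ∃ (s g0 : ℕ) (al M : ℝ), Prm t W s al M ∧
      c * (Nat.log 2 W + 1) + s ≤ g0 ∧
      (3 / 4 : ℝ) ^ g0 * (8 * (t : ℝ) * (W : ℝ) * (k : ℝ)) ≤ 1 ∧
      8 * (W : ℝ) * 2 ^ (c * (Nat.log 2 W + 1)) * 2 ^ (a * (Nat.log 2 W + 1)) ≤ M ∧
      g0 + (t - 2) * s ≤ c' * (Nat.log 2 W + 1) ∧
      (8 * (W : ℝ) * M * 2 ^ (g0 + (t - 2) * s)) ^ (t - 2) *
        (M + 8 * (t : ℝ) * (W : ℝ) * (k : ℝ)) ≤ 2 ^ (a' * (Nat.log 2 W + 1)) := by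
  refine ⟨c + 16 * t * (a + c + 9) + 3 * (2 * t + k + 5) + (t - 2) * (16 * t * (a + c + 9)),
    (4 + (a + c + 4) + (c + 16 * t * (a + c + 9) + 3 * (2 * t + k + 5) +
      (t - 2) * (16 * t * (a + c + 9)))) * (t - 2) + (a + c + 4) + (2 * t + k + 5) + 1, ?_, ?_⟩
  · omega
  intro W hW
  set c' : ℕ := c + 16 * t * (a + c + 9) + 3 * (2 * t + k + 5) + (t - 2) * (16 * t * (a + c + 9))
    with hc'
  set l : ℕ := Nat.log 2 W + 1 with hl
  have hl1 : 1 ≤ l := by omega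
  have hWl : (W : ℝ) ≤ 2 ^ l := by
    have h := Nat.lt_pow_succ_log_self (b := 2) (by norm_num) W
    have : W ≤ 2 ^ l := by
      rw [hl]
      exact h.le
    exact_mod_cast this
  have hW0 : (0 : ℝ) ≤ (W : ℝ) := Nat.cast_nonneg _
  have htl : (t : ℝ) ≤ 2 ^ t := by
    have := (Nat.lt_two_pow_self (n := t)).le
    exact_mod_cast this
  have hkl : (k : ℝ) ≤ 2 ^ k := by
    have := (Nat.lt_two_pow_self (n := k)).le
    exact_mod_cast this
  have ht0 : (0 : ℝ) ≤ (t : ℝ) := Nat.cast_nonneg _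
  have hk0 : (0 : ℝ) ≤ (k : ℝ) := Nat.cast_nonneg _
  have htR : (4 : ℝ) ≤ (t : ℝ) := by exact_mod_cast ht
  -- bound of 8 t W k
  have hbig : 8 * (t : ℝ) * (W : ℝ) * (k : ℝ) ≤ 2 ^ ((2 * t + k + 5) * l) := by
    have h1 : (8 : ℝ) * (t : ℝ) ≤ 2 ^ (3 + t) := mul_pow_le ht0 (by norm_num) htl
    have h2 : (8 : ℝ) * (t : ℝ) * (W : ℝ) ≤ 2 ^ (3 + t + l) := mul_pow_le hW0 h1 hWl
    have h3 : (8 : ℝ) * (t : ℝ) * (W : ℝ) * (k : ℝ) ≤ 2 ^ (3 + t + l + k) :=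
      mul_pow_le hk0 h2 hkl
    refine h3.trans (pow_le_pow_right₀ (by norm_num) ?_)
    nlinarith [Nat.mul_le_mul_left (2 * t + k + 4) hl1]
  have hM1 : (1 : ℝ) ≤ 2 ^ ((a + c + 4) * l) := one_le_pow₀ (by norm_num)
  have hsum : (8 * (W : ℝ)) ≤ 2 ^ (4 * l) := by
    have h1 : (8 : ℝ) * (W : ℝ) ≤ 2 ^ (3 + l) := mul_pow_le hW0 (by norm_num) hWl
    refine h1.trans (pow_le_pow_right₀ (by norm_num) ?_)
    omega
  refine ⟨16 * t * (a + c + 9) * l, c * l + 16 * t * (a + c + 9) * l + 3 * (2 * t + k + 5) * l,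
    1 / (16 * (t : ℝ)), 2 ^ ((a + c + 4) * l), ⟨ht, hW, ?_, ?_, ?_, hM1, ?_⟩, ?_, ?_, ?_, ?_, ?_⟩
  · -- 1 ≤ s
    have : 0 < 16 * t * (a + c + 9) * l := by positivity
    omega
  · positivity
  · rw [mul_one_div, div_self]
    positivity
  · -- eps
    have h1 : (1 - 1 / (16 * (t : ℝ))) ^ (16 * t * (a + c + 9) * l) ≤
        (1 / 2 : ℝ) ^ ((a + c + 9) * l) := by
      have h0 : 0 ≤ 1 - 1 / (16 * (t : ℝ)) := by
        have : 1 / (16 * (t : ℝ)) ≤ 1 := by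
          rw [div_le_one (by linarith)]
          linarith
        linarith
      rw [show 16 * t * (a + c + 9) * l = (16 * t) * ((a + c + 9) * l) by ring, pow_mul]
      exact pow_le_pow_left₀ (pow_nonneg h0 _) (pow_base t ht) _
    have h2 : 16 * (W : ℝ) * 2 ^ ((a + c + 4) * l) ≤ 2 ^ ((a + c + 9) * l) := by
      have h3 : (16 : ℝ) * (W : ℝ) ≤ 2 ^ (4 + l) := mul_pow_le hW0 (by norm_num) hWl
      have h4 : 16 * (W : ℝ) * 2 ^ ((a + c + 4) * l) ≤ 2 ^ (4 + l + (a + c + 4) * l) :=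
        mul_pow_le (by positivity) h3 le_rfl
      refine h4.trans (pow_le_pow_right₀ (by norm_num) ?_)
      nlinarith
    calc (1 - 1 / (16 * (t : ℝ))) ^ (16 * t * (a + c + 9) * l) *
          (16 * (W : ℝ) * 2 ^ ((a + c + 4) * l))
        ≤ (1 / 2 : ℝ) ^ ((a + c + 9) * l) * 2 ^ ((a + c + 9) * l) :=
          mul_le_mul h1 h2 (by positivity) (by positivity)
      _ = 1 := by
          rw [← mul_pow]
          norm_num
  · -- c l + s ≤ g0
    omega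
  · -- (3/4)^g0
    have h1 : (3 / 4 : ℝ) ^ (c * l + 16 * t * (a + c + 9) * l + 3 * (2 * t + k + 5) * l) ≤
        (1 / 2 : ℝ) ^ ((2 * t + k + 5) * l) := by
      calc (3 / 4 : ℝ) ^ (c * l + 16 * t * (a + c + 9) * l + 3 * (2 * t + k + 5) * l)
          ≤ (3 / 4 : ℝ) ^ (3 * (2 * t + k + 5) * l) :=
            pow_le_pow_of_le_one (by norm_num) (by norm_num) (by omega)
        _ = ((3 / 4 : ℝ) ^ 3) ^ ((2 * t + k + 5) * l) := by
            rw [← pow_mul, mul_assoc]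
        _ ≤ (1 / 2 : ℝ) ^ ((2 * t + k + 5) * l) :=
            pow_le_pow_left₀ (by norm_num) (by norm_num) _
    calc _ ≤ (1 / 2 : ℝ) ^ ((2 * t + k + 5) * l) * 2 ^ ((2 * t + k + 5) * l) :=
          mul_le_mul h1 hbig (by positivity) (by positivity)
      _ = 1 := by
          rw [← mul_pow]
          norm_num
  · -- 8 W 2^(c l) 2^(a l) ≤ M
    have h1 : 8 * (W : ℝ) * 2 ^ (c * l) ≤ 2 ^ (4 * l + c * l) :=
      mul_pow_le (by positivity) hsum le_rfl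
    have h2 : 8 * (W : ℝ) * 2 ^ (c * l) * 2 ^ (a * l) ≤ 2 ^ (4 * l + c * l + a * l) :=
      mul_pow_le (by positivity) h1 le_rfl
    refine h2.trans (pow_le_pow_right₀ (by norm_num) ?_)
    have : (a + c + 4) * l = 4 * l + c * l + a * l := by ring
    omega
  · -- g0 + (t-2) s ≤ c' l
    rw [hc']
    apply le_of_eq
    ring
  · -- last
    have hexp : c * l + 16 * t * (a + c + 9) * l + 3 * (2 * t + k + 5) * l +
        (t - 2) * (16 * t * (a + c + 9) * l) = c' * l := by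
      rw [hc']
      ring
    rw [hexp]
    have h1 : 8 * (W : ℝ) * 2 ^ ((a + c + 4) * l) ≤ 2 ^ (4 * l + (a + c + 4) * l) :=
      mul_pow_le (by positivity) hsum le_rfl
    have h2 : 8 * (W : ℝ) * 2 ^ ((a + c + 4) * l) * 2 ^ (c' * l) ≤
        2 ^ (4 * l + (a + c + 4) * l + c' * l) :=
      mul_pow_le (by positivity) h1 le_rfl
    have h3 : (8 * (W : ℝ) * 2 ^ ((a + c + 4) * l) * 2 ^ (c' * l)) ^ (t - 2) ≤
        2 ^ ((4 * l + (a + c + 4) * l + c' * l) * (t - 2)) := by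
      rw [pow_mul 2 (4 * l + (a + c + 4) * l + c' * l) (t - 2)]
      exact pow_le_pow_left₀ (by positivity) h2 _
    have h4 : (2 : ℝ) ^ ((a + c + 4) * l) + 8 * (t : ℝ) * (W : ℝ) * (k : ℝ) ≤
        2 ^ ((a + c + 4) * l + (2 * t + k + 5) * l + 1) := by
      have hx : (1 : ℝ) ≤ 2 ^ ((2 * t + k + 5) * l) := one_le_pow₀ (by norm_num)
      rw [pow_succ, pow_add]
      nlinarith
    refine (mul_pow_le (by positivity) h3 h4).trans (pow_le_pow_right₀ (by norm_num) ?_)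
    have : ((4 + (a + c + 4) + c') * (t - 2) + (a + c + 4) + (2 * t + k + 5) + 1) * l =
      (4 * l + (a + c + 4) * l + c' * l) * (t - 2) + ((a + c + 4) * l + (2 * t + k + 5) * l + l) := by
      ring
    omega

end Pool.Agent.QPT
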