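import Pool.Agent.QPT.Bad
import Pool.Agent.QPT.Core
import Pool.Agent.QPT.Ext
import Pool.Agent.QPT.Par
import Pool.Agent.QPT.GgTwo
import Pool.Agent.QPT.NumB

/-! QPT-Step: the induction on `k`.

PLAN. `gg_step`: let `c, a` be the constants of `GG t k`, `c', a'` those of `exists_prm`; `A' = 2^(a' l)`. `D` with
`Xt (c' l) D`; `conn_of_xt`: `C ⊆ D` connected, `chi C = chi D`, `om C = om D`, `Xt (c' l) C`, `xt_mono` to
`g0 + (t-2) s`. `bad_exists`: `D' ⊆ C`, `Λ^(t-2) = L`, `chi C ≤ L chi D'`, bad. `T0 = T0 G W (4 t W) D'`, `chi D' ≤ 4 W chi T0`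
(`chi_T0`). `scale` with `g = c l`, `F = 4 W` (`4 W ≤ 16 W M`; `Xt (c l + s) D'` by `xt_mono`): `Y ⊆ T0`, `Xt (c l) Y`,
`(1 - al) om D' ≤ om Y` so `2 ≤ om Y`, `chi D' ≤ 4 W 2^(c l) chi Y`. Relation `E' z y := E z y ∨ z ∈ E0 G D' y`. For `x ∈ Y`:
`chi (Y.filter (E' · x)) ≤ chi (D.filter (E · x)) + chi (E0 D' x) ≤ chi D / A' + chi D' / M`,
`chi D ≤ L chi D'` and `L M ≤ A'`: at most `2 chi D' / M ≤ 8 W 2^(c l) chi Y / M ≤ chi Y / 2^(a l)`. So `GG t k` gives a path `x` in `Y`,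
`ext` (with `D'`, `m = k`, `g = g0`) gives the path on `k + 1` vertices: `8 t W k chi (D'.filter ..) ≤ 8 t W k chi D / A' ≤ chi D'`
because `L (8 t W k) ≤ A'`. `gg_all`: induction. -/

open Finset
open scoped Classical
open Pool.Agent.Helper20.Dense Pool.Agent.QPB

namespace Pool.Agent.QPT

theorem gg_step {t k : ℕ} (ht : 4 ≤ t) (hk : 2 ≤ k) (h : GG t k) : GG t (k + 1) := by
  obtain ⟨c, a, hc, H⟩ := h
  obtain ⟨c', a', hc', HP⟩ := exists_prm t k c a ht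
  refine ⟨c', a', hc', ?_⟩
  intro V _ _ G hfree W hW hom D hD hD2 E hE
  obtain ⟨s, g0, al, M, hP, p1, p2, p3, p4, p5⟩ := HP W hW
  set l : ℕ := Nat.log 2 W + 1 with hl
  have hl1 : 1 ≤ l := by omega
  have htR : (4 : ℝ) ≤ t := by exact_mod_cast ht
  have hWR : (2 : ℝ) ≤ W := by exact_mod_cast hW
  have hkR : (2 : ℝ) ≤ k := by exact_mod_cast hk
  have hM := hP.hM
  have hal0 := hP.al_pos
  have hal1 : al ≤ 1 / 64 := by
    have h1 := hP.al_le
    nlinarith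
  -- connected part
  obtain ⟨C, hCD, hCc, hCX, hCchi, hCom⟩ := conn_of_xt G (Nat.mul_pos hc' hl1) hD
  have hCX' : Xt G (g0 + (t - 2) * s) C := xt_mono G p4 hCX
  have hC2 : 2 ≤ om G C := by rw [hCom]; exact hD2
  obtain ⟨D', hD'C, hD'c, hD'X, hD'2, hD'chi, hbad⟩ :=
    bad_exists G hP hfree hom (by omega : s ≤ g0) hCX' hCc hC2
  set L : ℝ := (8 * (W : ℝ) * M * 2 ^ (g0 + (t - 2) * s)) ^ (t - 2) with hL
  have hLpos : 0 < L := by positivity
  have hD'D : D' ⊆ D := hD'C.trans hCD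
  -- the core
  set T : Finset V := T0 G W (4 * (t : ℝ) * (W : ℝ)) D' with hT
  have hTD : T ⊆ D' := Finset.filter_subset _ _
  have hTchi := chi_T0 G (by omega : 1 ≤ t) (by omega : 1 ≤ W) hfree D'
  rw [← hT] at hTchi
  have heps : (1 - al) ^ s * (4 * (W : ℝ)) ≤ 1 := by
    have h1 := hP.eps
    have h2 : (0 : ℝ) ≤ (1 - al) ^ s := pow_nonneg (by linarith) s
    have h3 : 4 * (W : ℝ) ≤ 16 * (W : ℝ) * M := by nlinarith
    exact (mul_le_mul_of_nonneg_left h3 h2).trans h1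
  obtain ⟨Y, hYT, hYc, hYX, hYom, hYchi⟩ := scale G (Nat.mul_pos hc hl1) hP.hs hal0
    (by linarith : al ≤ 1 / 2) heps (xt_mono G p1 hD'X) hTD hTchi
  have hY2 : 2 ≤ om G Y := by
    by_contra hcon
    have h1 : om G Y ≤ 1 := by omega
    have h2 : (om G Y : ℝ) ≤ 1 := by exact_mod_cast h1
    have h3 : (2 : ℝ) ≤ om G D' := by exact_mod_cast hD'2
    nlinarith
  have hYD' : Y ⊆ D' := hYT.trans hTD
  -- the relation is sparse in `D'`
  have hsp : ∀ x ∈ D', (M + 8 * (t : ℝ) * (W : ℝ) * (k : ℝ)) *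
      (chi G (D.filter (fun z => E z x)) : ℝ) ≤ (chi G D' : ℝ) := by
    intro x hx
    have h1 := hE x (hD'D hx)
    have h2 : (0 : ℝ) ≤ (chi G (D.filter (fun z => E z x)) : ℝ) := Nat.cast_nonneg _
    have h3 := mul_le_mul_of_nonneg_right p5 h2
    have h4 : (chi G D : ℝ) ≤ L * (chi G D' : ℝ) := by
      rw [← hCchi]
      exact hD'chi
    have h5 : L * ((M + 8 * (t : ℝ) * (W : ℝ) * (k : ℝ)) *
        (chi G (D.filter (fun z => E z x)) : ℝ)) ≤ L * (chi G D' : ℝ) := by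
      rw [← mul_assoc]
      exact h3.trans (h1.trans h4)
    exact le_of_mul_le_mul_left h5 hLpos
  have hq0 : (0 : ℝ) ≤ 8 * (t : ℝ) * (W : ℝ) * (k : ℝ) := by positivity
  have hrel : ∀ x ∈ Y, (2 : ℝ) ^ (a * l) *
      (chi G (Y.filter (fun z => E z x ∨ z ∈ E0 G D' x)) : ℝ) ≤ (chi G Y : ℝ) := by
    intro x hx
    have hx' : x ∈ D' := hYD' hx
    have h1 : Y.filter (fun z => E z x ∨ z ∈ E0 G D' x) ⊆
        D.filter (fun z => E z x) ∪ E0 G D' x := by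
      intro z hz
      obtain ⟨hz1, hz2⟩ := Finset.mem_filter.mp hz
      rw [Finset.mem_union, Finset.mem_filter]
      rcases hz2 with hz2 | hz2
      · exact Or.inl ⟨hD'D (hYD' hz1), hz2⟩
      · exact Or.inr hz2
    have h2 : (chi G (Y.filter (fun z => E z x ∨ z ∈ E0 G D' x)) : ℝ) ≤
        (chi G (D.filter (fun z => E z x)) : ℝ) + (chi G (E0 G D' x) : ℝ) := by
      exact_mod_cast (chi_mono G h1).trans (chi_union G _ _)
    have h3 := hsp x hx'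
    have h4 := hbad x hx'
    have h5 : (0 : ℝ) ≤ (chi G (D.filter (fun z => E z x)) : ℝ) := Nat.cast_nonneg _
    have h6 : (0 : ℝ) ≤ (chi G (Y.filter (fun z => E z x ∨ z ∈ E0 G D' x)) : ℝ) :=
      Nat.cast_nonneg _
    have h7 : M * (chi G (D.filter (fun z => E z x)) : ℝ) ≤ (chi G D' : ℝ) := by nlinarith
    have h8 : M * (chi G (Y.filter (fun z => E z x ∨ z ∈ E0 G D' x)) : ℝ) ≤
        2 * (chi G D' : ℝ) := by nlinarith
    have h9 := mul_le_mul_of_nonneg_right p3 h6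
    have hK : (0 : ℝ) < 8 * (W : ℝ) * 2 ^ (c * l) := by positivity
    have h10 : (8 * (W : ℝ) * 2 ^ (c * l)) * ((2 : ℝ) ^ (a * l) *
        (chi G (Y.filter (fun z => E z x ∨ z ∈ E0 G D' x)) : ℝ)) ≤
        (8 * (W : ℝ) * 2 ^ (c * l)) * (chi G Y : ℝ) := by
      calc (8 * (W : ℝ) * 2 ^ (c * l)) * ((2 : ℝ) ^ (a * l) *
          (chi G (Y.filter (fun z => E z x ∨ z ∈ E0 G D' x)) : ℝ))
          = 8 * (W : ℝ) * 2 ^ (c * l) * 2 ^ (a * l) *
          (chi G (Y.filter (fun z => E z x ∨ z ∈ E0 G D' x)) : ℝ) := by ring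
        _ ≤ M * (chi G (Y.filter (fun z => E z x ∨ z ∈ E0 G D' x)) : ℝ) := h9
        _ ≤ 2 * (chi G D' : ℝ) := h8
        _ ≤ 2 * (4 * (W : ℝ) * 2 ^ (c * l) * (chi G Y : ℝ)) := by linarith
        _ = (8 * (W : ℝ) * 2 ^ (c * l)) * (chi G Y : ℝ) := by ring
    exact le_of_mul_le_mul_left h10 hK
  obtain ⟨x, hx, hxY⟩ := H V G hfree W hW hom Y hYX hY2
    (fun z y => E z y ∨ z ∈ E0 G D' y) (by
      intro x hx
      convert hrel x hx)
  have hg0 : 1 ≤ g0 := by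
    have := Nat.mul_pos hc hl1
    omega
  have homD' : om G D' ≤ W := (om_mono G (Finset.subset_univ _)).trans hom
  have hE' : ∀ x ∈ D', 8 * (t : ℝ) * (W : ℝ) * (k : ℝ) *
      (chi G (D'.filter (fun z => E z x)) : ℝ) ≤ (chi G D' : ℝ) := by
    intro x hx
    have h1 := hsp x hx
    have h2 : (chi G (D'.filter (fun z => E z x)) : ℝ) ≤
        (chi G (D.filter (fun z => E z x)) : ℝ) := by
      exact_mod_cast chi_mono G (Finset.filter_subset_filter _ hD'D)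
    have h3 : (0 : ℝ) ≤ (chi G (D.filter (fun z => E z x)) : ℝ) := Nat.cast_nonneg _
    have h4 := mul_le_mul_of_nonneg_left h2 hq0
    nlinarith
  obtain ⟨y, hy, hyD⟩ := ext G (by omega : 1 ≤ t) hW hg0 hk hD'X homD' hD'2 p2 hE' hx
    (fun i hi => hYT (hxY i hi))
  exact ⟨y, hy, fun i hi => hD'D (hyD i hi)⟩

theorem gg_all {t : ℕ} (ht : 4 ≤ t) {k : ℕ} (hk : 2 ≤ k) : GG t k := by
  induction k, hk using Nat.le_induction with
  | base => exact gg_two t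
  | succ k hk ih => exact gg_step ht hk ih

end Pool.Agent.QPT
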